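import Pool.Agent.Results.MP_48b3e2_nt.ZetaThreeExponentC
import Pool.Agent.Results.MP_a49cf6_nt.DigitRecurrences
import Pool.Agent.R523.MixedSharp

/-!
# The digits of `ζ(3)` and of polynomials in `ζ(3)`

The order `N_(b,h)(x; L)` is the least order of a linear recurrence over `ℚ` for the first `L` terms of an
expansion `x = n + ∑ s_i b ^ (-i-1)` with integers `n` and `s_i`, `|s_i| ≤ b ^ h` (the usual digits are one
choice). A number `x` is rational if and only if `N_(b,h)(x; L)` is bounded for `L → ∞`.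

If `ζ(3)` is algebraic of degree `δ ≤ d`, then `P(ζ(3))` is rational, and the order is bounded, for the
integer polynomials `P` in a subspace of dimension `d + 1 - δ` of the space of polynomials of degree at most `d`
without constant term. We prove unconditionally that for every `d` the polynomials `P` for which
`N_(b,h)(P(ζ(3)); L)` is, for all large `L`, smaller than `(1 / (4.68 d) - ε) L` lie in one hyperplane. For `d = 1`:
`N_(b,h)(u ζ(3); L) ≥ (1 / 4.68 - ε) L` for all large `L`. The powers `ζ(3) ^ 2, …, ζ(3) ^ d` can be replaced by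
arbitrary real numbers.
-/

set_option autoImplicit false

namespace Pool.Agent.Results.MP_48b3e2_nt.DigitsOfPolynomialValues

open Finset
open Pool.Agent.Results.MP_a49cf6_nt.DigitRecurrences (F F_linear)

/-- `ζ(3)` -/
noncomputable def z3 : ℝ := ∑' n : ℕ, 1 / ((n : ℝ) + 1) ^ 3

/-- `x = n + ∑ s_i b ^ (-i-1)` with an integer `n` and integers `s_i`, `|s_i| ≤ b ^ h` -/
def Expansion (b h : ℕ) (x : ℝ) (s : ℕ → ℤ) : Prop :=
  (∀ i, |s i| ≤ ((b ^ h : ℕ) : ℤ)) ∧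
    ∃ n : ℤ, HasSum (fun i : ℕ => (s i : ℝ) / (b : ℝ) ^ (i + 1)) (x - n)

/-- the first `L` terms `s_0, …, s_(L-1)` satisfy the linear recurrence
`s_(i+m) = c_0 s_i + … + c_(m-1) s_(i+m-1)` -/
def Recurrence (s : ℕ → ℤ) (c : ℕ → ℚ) (L m : ℕ) : Prop :=
  ∀ i : ℕ, i + m < L → (s (i + m) : ℚ) = ∑ l ∈ range m, c l * (s (i + l) : ℚ)

/-- the least order of a linear recurrence over `ℚ` satisfied by the first `L` terms of an expansion
of `x` in base `b` with `|s_i| ≤ b ^ h` -/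
noncomputable def order (b h : ℕ) (x : ℝ) (L : ℕ) : ℕ :=
  sInf {m | ∃ (s : ℕ → ℤ) (c : ℕ → ℚ), Expansion b h x s ∧ Recurrence s c L m}

/-- `a_0 ζ(3) + a_1 t_0 + … + a_r t_(r-1)` -/
noncomputable def comb {r : ℕ} (t : Fin r → ℝ) (a : Fin (r + 1) → ℤ) : ℝ :=
  (a 0 : ℝ) * z3 + ∑ i : Fin r, (a i.succ : ℝ) * t i

/-! ### the order -/

lemma expansion_exists (b h : ℕ) (hb : 2 ≤ b) (hh : 1 ≤ h) (x : ℝ) : ∃ s, Expansion b h x s := by
  have : NeZero b := ⟨by omega⟩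
  refine ⟨fun i => ((Real.digits (Int.fract x) b i : ℕ) : ℤ), fun i => ?_, ⌊x⌋, ?_⟩
  · have h1 : (Real.digits (Int.fract x) b i : ℕ) < b := (Real.digits (Int.fract x) b i).2
    have h2 : b ≤ b ^ h := by
      calc b = b ^ 1 := (pow_one b).symm
        _ ≤ b ^ h := Nat.pow_le_pow_right (by omega) hh
    beta_reduce
    rw [abs_of_nonneg (by positivity)]
    exact_mod_cast h1.le.trans h2
  · have h1 := Real.hasSum_ofDigitsTerm_digits (Int.fract x) (b := b) (by omega)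
      ⟨Int.fract_nonneg x, Int.fract_lt_one x⟩
    rw [Int.self_sub_floor]
    convert h1 using 1
    funext i
    unfold Real.ofDigitsTerm
    rw [div_eq_mul_inv]
    push_cast
    rfl

lemma order_mem (b h : ℕ) (hb : 2 ≤ b) (hh : 1 ≤ h) (x : ℝ) (L : ℕ) :
    ∃ (s : ℕ → ℤ) (c : ℕ → ℚ), Expansion b h x s ∧ Recurrence s c L (order b h x L) := by
  have h1 : order b h x L ∈ {m | ∃ (s : ℕ → ℤ) (c : ℕ → ℚ), Expansion b h x s ∧
      Recurrence s c L m} := by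
    apply Nat.sInf_mem
    obtain ⟨s, hs⟩ := expansion_exists b h hb hh x
    exact ⟨L, s, fun _ => 0, hs, fun i hi => by omega⟩
  exact h1

lemma order_anti (b h h' : ℕ) (hb : 2 ≤ b) (hh : 1 ≤ h) (hle : h ≤ h') (x : ℝ) (L : ℕ) :
    order b h' x L ≤ order b h x L := by
  obtain ⟨s, c, hs, hc⟩ := order_mem b h hb hh x L
  refine Nat.sInf_le ⟨s, c, ⟨fun i => (hs.1 i).trans ?_, hs.2⟩, hc⟩
  have : b ^ h ≤ b ^ h' := Nat.pow_le_pow_right (by omega) hle
  exact_mod_cast this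

/-! ### the measure -/

/-- the measure, uniform in `t` -/
theorem meas_comb (r H : ℕ) : ∃ c0 : ℝ, 0 < c0 ∧ ∀ (t : Fin r → ℝ)
    (M : Matrix (Fin (r + 1)) (Fin (r + 1)) ℤ), M.det ≠ 0 → (∀ i j, |M i j| ≤ H) →
      Pool.Agent.W47.JL.Meas (r + 1) (fun j => comb t (M j)) 4.68 c0 0 := by
  classical
  obtain ⟨c, hc, hM⟩ := Pool.Agent.Results.MP_48b3e2_nt.ZetaThreeExponentC.result
  -- a bound for the determinants and the adjugates
  obtain ⟨B, hB1, hB⟩ : ∃ B : ℝ, 1 ≤ B ∧ ∀ M : Matrix (Fin (r + 1)) (Fin (r + 1)) ℤ,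
      (∀ i j, |M i j| ≤ H) → |(M.det : ℝ)| ≤ B ∧ ∑ j, |(M.adjugate 0 j : ℝ)| ≤ B := by
    have hfin : Set.Finite {M : Fin (r + 1) → Fin (r + 1) → ℤ | ∀ i j, |M i j| ≤ H} := by
      refine Set.Finite.subset (Set.Finite.pi fun _ : Fin (r + 1) =>
        Set.Finite.pi fun _ : Fin (r + 1) => Set.finite_Icc (-(H : ℤ)) H) fun M hM => ?_
      rw [Set.mem_pi]
      intro i _
      rw [Set.mem_pi]
      intro j _
      exact abs_le.1 (hM i j)
    obtain ⟨f, hf⟩ : ∃ f : Matrix (Fin (r + 1)) (Fin (r + 1)) ℤ → ℝ, f = fun M =>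
      |(M.det : ℝ)| + ∑ j, |(M.adjugate 0 j : ℝ)| := ⟨_, rfl⟩
    obtain ⟨B0, hB0⟩ := (hfin.image fun M => f (Matrix.of M)).bddAbove
    refine ⟨max 1 B0, le_max_left _ _, fun M hMH => ?_⟩
    have h1 : f M ≤ B0 := hB0 ⟨fun i j => M i j, hMH, rfl⟩
    rw [hf] at h1
    beta_reduce at h1
    have h3 : 0 ≤ ∑ j, |(M.adjugate 0 j : ℝ)| := Finset.sum_nonneg fun _ _ => abs_nonneg _
    have h4 := le_max_right 1 B0
    have h5 := abs_nonneg (M.det : ℝ)
    exact ⟨by linarith, by linarith⟩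
  have hB0 : 0 < B := by linarith
  have hBe : 0 < B ^ (3.68 : ℝ) := Real.rpow_pos_of_pos hB0 _
  refine ⟨c / (2 * (B * B ^ (3.68 : ℝ))), by positivity, fun t M hdet hMH => ?_⟩
  obtain ⟨hD, hA⟩ := hB M hMH
  intro q hq p
  have hqR : (1 : ℝ) ≤ q := by exact_mod_cast hq
  have hq0 : (0 : ℝ) < q := by linarith
  have hDN : 1 ≤ M.det.natAbs := Int.natAbs_pos.mpr hdet
  have hDR0 : (0 : ℝ) < M.det.natAbs := by exact_mod_cast hDN
  have hDR : (M.det.natAbs : ℝ) ≤ B := by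
    have h1 : (M.det.natAbs : ℝ) = |(M.det : ℝ)| := by rw [Nat.cast_natAbs, Int.cast_abs]
    rw [h1]
    exact hD
  obtain ⟨P, hP⟩ : ∃ P : ℤ, P = M.det.sign * ∑ j, M.adjugate 0 j * p j := ⟨_, rfl⟩
  obtain ⟨Q, hQ⟩ : ∃ Q : ℕ, Q = q * M.det.natAbs := ⟨_, rfl⟩
  have hQ1 : 1 ≤ Q := by rw [hQ]; exact Nat.mul_pos hq hDN
  have hQ0 : (0 : ℝ) < Q := by exact_mod_cast hQ1
  have hi := hM P Q hQ1
  have hi' : c ≤ (Q : ℝ) ^ (3.68 : ℝ) * |Q * z3 - P| := by
    have h1 : (∑' n : ℕ, 1 / ((n : ℝ) + 1) ^ 3) - (P : ℝ) / Q = (Q * z3 - P) / Q := by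
      have : (∑' n : ℕ, 1 / ((n : ℝ) + 1) ^ 3) = z3 := rfl
      rw [this]
      field_simp
    rw [h1, abs_div, abs_of_pos hQ0, div_le_div_iff₀ (by positivity) hQ0] at hi
    have h2 : (Q : ℝ) ^ ((468 : ℝ) / 100) = (Q : ℝ) ^ (3.68 : ℝ) * Q := by
      rw [← Real.rpow_add_one hQ0.ne']
      norm_num
    rw [h2] at hi
    have h3 : c * Q ≤ ((Q : ℝ) ^ (3.68 : ℝ) * |Q * z3 - P|) * Q := by linarith
    exact le_of_mul_le_mul_right h3 hQ0
  -- the identity
  have hadj : ∀ k : Fin (r + 1), ∑ j, M.adjugate 0 j * M j k = if 0 = k then M.det else 0 := by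
    intro k
    have h1 := congrFun (congrFun (Matrix.adjugate_mul M) 0) k
    rw [Matrix.mul_apply] at h1
    rw [h1, Matrix.smul_apply, Matrix.one_apply]
    split_ifs <;> simp
  have hx : ∑ j, (M.adjugate 0 j : ℝ) * comb t (M j) = (M.det : ℝ) * z3 := by
    unfold comb
    simp only [mul_add, Finset.mul_sum, Finset.sum_add_distrib]
    have h1 : ∑ j, (M.adjugate 0 j : ℝ) * ((M j 0 : ℝ) * z3) = M.det * z3 := by
      have h2 := hadj 0
      rw [if_pos rfl] at h2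
      have h3 : ∑ j, (M.adjugate 0 j : ℝ) * (M j 0 : ℝ) = M.det := by exact_mod_cast h2
      rw [← h3, Finset.sum_mul]
      exact Finset.sum_congr rfl fun j _ => by ring
    have h4 : ∑ j, ∑ i : Fin r, (M.adjugate 0 j : ℝ) * ((M j i.succ : ℝ) * t i) = 0 := by
      rw [Finset.sum_comm]
      refine Finset.sum_eq_zero fun k _ => ?_
      have h2 := hadj k.succ
      rw [if_neg (Fin.succ_ne_zero k).symm] at h2
      have h3 : ∑ j, (M.adjugate 0 j : ℝ) * (M j k.succ : ℝ) = 0 := by exact_mod_cast h2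
      calc ∑ j, (M.adjugate 0 j : ℝ) * ((M j k.succ : ℝ) * t k) =
          (∑ j, (M.adjugate 0 j : ℝ) * (M j k.succ : ℝ)) * t k := by
            rw [Finset.sum_mul]
            exact Finset.sum_congr rfl fun j _ => by ring
        _ = 0 := by rw [h3, zero_mul]
    rw [h1, h4, add_zero]
  by_contra hcon
  push Not at hcon
  simp only [Real.rpow_zero, mul_one] at hcon
  rw [show (4.68 : ℝ) - 1 = 3.68 by norm_num] at hcon
  obtain ⟨E, hE⟩ : ∃ E : ℝ, E = (q : ℝ) ^ (3.68 : ℝ) := ⟨_, rfl⟩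
  have hE0 : 0 < E := by rw [hE]; positivity
  rw [← hE] at hcon
  have hδ : ∀ j, |(q : ℝ) * comb t (M j) - p j| ≤ c / (2 * (B * B ^ (3.68 : ℝ))) / E := fun j => by
    rw [le_div_iff₀ hE0, mul_comm]
    exact (hcon j).le
  have hsgn : (M.det.natAbs : ℝ) = M.det.sign * (M.det : ℝ) := by
    rw [Nat.cast_natAbs, ← Int.sign_mul_self_eq_abs]
    push_cast
    ring
  have hsgn1 : |(M.det.sign : ℝ)| = 1 := by
    rcases lt_or_gt_of_ne hdet with h | h
    · rw [Int.sign_eq_neg_one_of_neg h]; simp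
    · rw [Int.sign_eq_one_of_pos h]; simp
  have hlin : (Q : ℝ) * z3 - P =
      M.det.sign * ∑ j, (M.adjugate 0 j : ℝ) * ((q : ℝ) * comb t (M j) - p j) := by
    rw [hQ, hP]
    push_cast
    rw [hsgn]
    have h1 : ∑ j, (M.adjugate 0 j : ℝ) * ((q : ℝ) * comb t (M j) - p j) =
        (q : ℝ) * (∑ j, (M.adjugate 0 j : ℝ) * comb t (M j)) -
        ∑ j, (M.adjugate 0 j : ℝ) * (p j : ℝ) := by
      rw [Finset.mul_sum, ← Finset.sum_sub_distrib]
      exact Finset.sum_congr rfl fun j _ => by ring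
    rw [h1, hx]
    ring
  have hsmall : |(Q : ℝ) * z3 - P| ≤ B * (c / (2 * (B * B ^ (3.68 : ℝ))) / E) := by
    rw [hlin, abs_mul, hsgn1, one_mul]
    calc |∑ j, (M.adjugate 0 j : ℝ) * ((q : ℝ) * comb t (M j) - p j)| ≤
        ∑ j, |(M.adjugate 0 j : ℝ) * ((q : ℝ) * comb t (M j) - p j)| :=
          Finset.abs_sum_le_sum_abs _ _
      _ ≤ ∑ j, |(M.adjugate 0 j : ℝ)| * (c / (2 * (B * B ^ (3.68 : ℝ))) / E) := by
          refine Finset.sum_le_sum fun j _ => ?_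
          rw [abs_mul]
          exact mul_le_mul_of_nonneg_left (hδ j) (abs_nonneg _)
      _ = (∑ j, |(M.adjugate 0 j : ℝ)|) * (c / (2 * (B * B ^ (3.68 : ℝ))) / E) := by rw [Finset.sum_mul]
      _ ≤ B * (c / (2 * (B * B ^ (3.68 : ℝ))) / E) := mul_le_mul_of_nonneg_right hA (by positivity)
  have hpow : (Q : ℝ) ^ (3.68 : ℝ) ≤ E * B ^ (3.68 : ℝ) := by
    rw [hQ]
    push_cast
    rw [Real.mul_rpow hq0.le hDR0.le, ← hE]
    exact mul_le_mul_of_nonneg_left (Real.rpow_le_rpow hDR0.le hDR (by norm_num)) hE0.le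
  have h9 : c ≤ E * B ^ (3.68 : ℝ) * (B * (c / (2 * (B * B ^ (3.68 : ℝ))) / E)) :=
    hi'.trans (mul_le_mul hpow hsmall (abs_nonneg _) (by positivity))
  have h10 : E * B ^ (3.68 : ℝ) * (B * (c / (2 * (B * B ^ (3.68 : ℝ))) / E)) = c / 2 := by field_simp
  rw [h10] at h9
  linarith

/-- part (1), with a positive constant -/
lemma general (r H h : ℕ) (hh : 1 ≤ h) : ∃ C : ℝ, 0 < C ∧
      ∀ (t : Fin r → ℝ) (M : Matrix (Fin (r + 1)) (Fin (r + 1)) ℤ), M.det ≠ 0 → (∀ i j, |M i j| ≤ H) →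
      ∀ b : Fin (r + 1) → ℕ, (∀ j, 2 ≤ b j) → ∀ L : Fin (r + 1) → ℕ,
        ∃ j, (L j : ℝ) * Real.log (b j) ≤ 4.68 *
          ∑ i, F C (order (b i) h (comb t (M i)) (L i)) * Real.log (b i) := by
  obtain ⟨c0, hc0, hm⟩ := meas_comb r H
  obtain ⟨C, hC0, hC⟩ := Pool.Agent.R523.MixedSharp.mixedSharp h hh 4.68 c0 (by norm_num) hc0
  refine ⟨C, hC0, fun t M hdet hMH b hb L => ?_⟩
  choose s c hs hc using fun i => order_mem (b i) h (hb i) hh (comb t (M i)) (L i)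
  exact hC (r + 1) (fun j => comb t (M j)) (hm t M hdet hMH) b hb s (fun j => (hs j).1)
    (fun j => (hs j).2) L (fun i => order (b i) h (comb t (M i)) (L i)) (fun j => ⟨c j, hc j⟩)

/-- lengths `L_j ≥ X / log b_j` -/
lemma sum_lower {r : ℕ} (t : Fin r → ℝ) (M : Matrix (Fin (r + 1)) (Fin (r + 1)) ℤ) (hdet : M.det ≠ 0)
    (b h : Fin (r + 1) → ℕ) (hb : ∀ j, 2 ≤ b j) (hh : ∀ j, 1 ≤ h j) (ε : ℝ) (hε : 0 < ε) :
    ∃ X0 : ℝ, ∀ X : ℝ, X0 ≤ X → ∀ L : Fin (r + 1) → ℕ, (∀ j, X ≤ L j * Real.log (b j)) →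
      (1 / 4.68 - ε) * X ≤ ∑ j, (order (b j) (h j) (comb t (M j)) (L j) : ℝ) * Real.log (b j) := by
  classical
  obtain ⟨H, hH⟩ : ∃ H : ℕ, H = ∑ i, ∑ j, (M i j).natAbs := ⟨_, rfl⟩
  have hMH : ∀ i j, |M i j| ≤ H := by
    intro i j
    rw [hH, Int.abs_eq_natAbs]
    have h1 : (M i j).natAbs ≤ ∑ j, (M i j).natAbs :=
      Finset.single_le_sum (f := fun j => (M i j).natAbs) (fun _ _ => Nat.zero_le _) (mem_univ j)
    have h2 : ∑ j, (M i j).natAbs ≤ ∑ i, ∑ j, (M i j).natAbs :=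
      Finset.single_le_sum (f := fun i => ∑ j, (M i j).natAbs) (fun _ _ => Nat.zero_le _) (mem_univ i)
    exact_mod_cast h1.trans h2
  obtain ⟨hm, hhm⟩ : ∃ hm : ℕ, hm = ∑ j, h j := ⟨_, rfl⟩
  have hle : ∀ j, h j ≤ hm := fun j => by
    rw [hhm]
    exact Finset.single_le_sum (f := h) (fun _ _ => Nat.zero_le _) (mem_univ j)
  have hm1 : 1 ≤ hm := (hh 0).trans (hle 0)
  obtain ⟨C, hC0, hC⟩ := general r H hm hm1
  obtain ⟨K, hK0, hK⟩ := F_linear C ε hC0 hε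
  obtain ⟨W, hW⟩ : ∃ W : ℝ, W = ∑ j, Real.log (b j) := ⟨_, rfl⟩
  have hlog : ∀ j, 0 < Real.log (b j) := fun j => Real.log_pos (by
    have : (2 : ℝ) ≤ b j := by exact_mod_cast hb j
    linarith)
  refine ⟨max 0 (K * W / (ε * ε)) , fun X hX L hL => ?_⟩
  have hX0 : 0 ≤ X := (le_max_left _ _).trans hX
  have hX1 : K * W ≤ X * (ε * ε) := by
    have := (le_max_right _ _).trans hX
    rwa [div_le_iff₀ (by positivity)] at this
  obtain ⟨j, hj⟩ := hC t M hdet hMH b hb L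
  obtain ⟨S, hS⟩ : ∃ S : ℝ, S = ∑ j, (order (b j) (h j) (comb t (M j)) (L j) : ℝ) * Real.log (b j) :=
    ⟨_, rfl⟩
  have hS0 : 0 ≤ S := by
    rw [hS]
    exact Finset.sum_nonneg fun j _ => mul_nonneg (Nat.cast_nonneg _) (hlog j).le
  have h1 : ∑ i, F C (order (b i) hm (comb t (M i)) (L i)) * Real.log (b i) ≤ (1 + ε) * S + K * W := by
    rw [hS, hW, Finset.mul_sum, Finset.mul_sum, ← Finset.sum_add_distrib]
    refine Finset.sum_le_sum fun i _ => ?_
    have h2 := hK (order (b i) hm (comb t (M i)) (L i))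
    have h3 : (order (b i) hm (comb t (M i)) (L i) : ℝ) ≤ order (b i) (h i) (comb t (M i)) (L i) := by
      exact_mod_cast order_anti (b i) (h i) hm (hb i) (hh i) (hle i) _ _
    have h4 : F C (order (b i) hm (comb t (M i)) (L i)) ≤
        (1 + ε) * order (b i) (h i) (comb t (M i)) (L i) + K :=
      h2.trans (by nlinarith)
    calc _ ≤ ((1 + ε) * order (b i) (h i) (comb t (M i)) (L i) + K) * Real.log (b i) :=
          mul_le_mul_of_nonneg_right h4 (hlog i).le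
      _ = _ := by ring
  have h5 : X ≤ 4.68 * ((1 + ε) * S + K * W) :=
    (hL j).trans (hj.trans (mul_le_mul_of_nonneg_left h1 (by norm_num)))
  rw [← hS]
  by_contra hcon
  push Not at hcon
  rcases le_or_gt (1 / 4.68) ε with h6 | h6
  · have : (1 / 4.68 - ε) * X ≤ 0 := mul_nonpos_of_nonpos_of_nonneg (by linarith) hX0
    linarith
  · have h7 : 4.68 * ((1 + ε) * S + K * W) < 4.68 * ((1 + ε) * ((1 / 4.68 - ε) * X)) +
        4.68 * (X * (ε * ε)) := by
      have := mul_lt_mul_of_pos_left hcon (by linarith : (0 : ℝ) < 1 + ε)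
      linarith
    have h8 : 4.68 * ((1 + ε) * ((1 / 4.68 - ε) * X)) + 4.68 * (X * (ε * ε)) =
        (1 + ε - 4.68 * ε) * X := by ring
    rw [h8] at h7
    have h9 : X < (1 + ε - 4.68 * ε) * X := lt_of_le_of_lt h5 h7
    nlinarith

/-- one number -/
lemma single (u : ℤ) (hu : u ≠ 0) (b h : ℕ) (hb : 2 ≤ b) (hh : 1 ≤ h) (ε : ℝ) (hε : 0 < ε) :
    ∀ᶠ L : ℕ in Filter.atTop, (1 / 4.68 - ε) * L ≤ order b h (u * z3) L := by
  have hbR : (2 : ℝ) ≤ b := by exact_mod_cast hb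
  have hlb : 0 < Real.log b := Real.log_pos (by linarith)
  have hd : (Matrix.of (fun (_ _ : Fin (0 + 1)) => u)).det ≠ 0 := by
    change (Matrix.of (fun (_ _ : Fin 1) => u)).det ≠ 0
    rw [Matrix.det_unique]
    exact hu
  obtain ⟨X0, hX0⟩ := sum_lower (r := 0) (fun i => i.elim0) (Matrix.of (fun (_ _ : Fin (0 + 1)) => u))
    hd (fun _ => b) (fun _ => h) (fun _ => hb) (fun _ => hh) ε hε
  obtain ⟨L0, hL0⟩ := exists_nat_gt (X0 / Real.log b)
  filter_upwards [Filter.eventually_ge_atTop L0] with L hL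
  have h1 : X0 ≤ L * Real.log b := by
    rw [div_lt_iff₀ hlb] at hL0
    have : (L0 : ℝ) ≤ L := by exact_mod_cast hL
    nlinarith
  have h2 := hX0 _ h1 (fun _ => L) (fun _ => le_rfl)
  have h3 : comb (r := 0) (fun i => i.elim0) (Matrix.of (fun (_ _ : Fin (0 + 1)) => u) 0) = u * z3 := by
    simp [comb]
  rw [Fin.sum_univ_succ, Fin.sum_univ_zero, add_zero, h3] at h2
  have h4 : (1 / 4.68 - ε) * L * Real.log b ≤ order b h (u * z3) L * Real.log b := by linarith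
  exact le_of_mul_le_mul_right h4 hlb

/-- the vectors `a` with small order -/
def Low {r : ℕ} (t : Fin r → ℝ) (a : Fin (r + 1) → ℤ) : Prop :=
  ∃ (b h : ℕ) (ε : ℝ), 2 ≤ b ∧ 1 ≤ h ∧ 0 < ε ∧ ∀ᶠ L : ℕ in Filter.atTop,
    (order b h (comb t a) L : ℝ) < (1 / (4.68 * ((r : ℝ) + 1)) - ε) * L

lemma not_all_low {r : ℕ} (t : Fin r → ℝ) (M : Matrix (Fin (r + 1)) (Fin (r + 1)) ℤ)
    (hdet : M.det ≠ 0) : ∃ j, ¬ Low t (M j) := by
  classical
  by_contra hcon
  push Not at hcon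
  choose b h ε hb hh hε hev using hcon
  have hr : (0 : ℝ) < (r : ℝ) + 1 := by positivity
  have hnem : (Finset.univ : Finset (Fin (r + 1))).Nonempty := ⟨0, mem_univ 0⟩
  obtain ⟨ε0, hε0⟩ : ∃ ε0 : ℝ, ε0 = Finset.univ.inf' hnem ε := ⟨_, rfl⟩
  have hε0p : 0 < ε0 := by
    rw [hε0, Finset.lt_inf'_iff]
    exact fun j _ => hε j
  have hε0l : ∀ j, ε0 ≤ ε j := fun j => by
    rw [hε0]
    exact Finset.inf'_le _ (mem_univ j)
  have hlog : ∀ j, 0 < Real.log (b j) := fun j => Real.log_pos (by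
    have : (2 : ℝ) ≤ b j := by exact_mod_cast hb j
    linarith)
  choose L0 hL0 using fun j => Filter.eventually_atTop.1 (hev j)
  obtain ⟨X0, hX0⟩ := sum_lower t M hdet b h hb hh (ε0 / 2) (by linarith)
  obtain ⟨W, hW⟩ : ∃ W : ℝ, W = ∑ j, Real.log (b j) := ⟨_, rfl⟩
  have hW0 : 0 ≤ W := by rw [hW]; exact Finset.sum_nonneg fun j _ => (hlog j).le
  obtain ⟨X, hX⟩ : ∃ X : ℝ, X = |X0| + (∑ j, (L0 j : ℝ) * Real.log (b j)) +
    (W * (1 / (4.68 * ((r : ℝ) + 1))) + 1) * (2 / ε0) := ⟨_, rfl⟩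
  have hs0 : 0 ≤ ∑ j, (L0 j : ℝ) * Real.log (b j) :=
    Finset.sum_nonneg fun j _ => mul_nonneg (Nat.cast_nonneg _) (hlog j).le
  have hθ0 : 0 < 1 / (4.68 * ((r : ℝ) + 1)) := by positivity
  have hp0 : 0 ≤ (W * (1 / (4.68 * ((r : ℝ) + 1))) + 1) * (2 / ε0) := by positivity
  have hXX0 : X0 ≤ X := by
    have := le_abs_self X0
    rw [hX]
    linarith
  have hXp : 0 < X := by
    have h1 : 0 < (W * (1 / (4.68 * ((r : ℝ) + 1))) + 1) * (2 / ε0) := by positivity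
    have := abs_nonneg X0
    rw [hX]
    linarith
  obtain ⟨L, hL⟩ : ∃ L : Fin (r + 1) → ℕ, L = fun j => ⌈X / Real.log (b j)⌉₊ := ⟨_, rfl⟩
  have hL1 : ∀ j, X ≤ L j * Real.log (b j) := fun j => by
    rw [hL, ← div_le_iff₀ (hlog j)]
    exact Nat.le_ceil _
  have hL2 : ∀ j, (L j : ℝ) * Real.log (b j) ≤ X + Real.log (b j) := fun j => by
    have h1 : (L j : ℝ) < X / Real.log (b j) + 1 := by
      rw [hL]
      exact Nat.ceil_lt_add_one (div_nonneg hXp.le (hlog j).le)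
    have h2 := mul_le_mul_of_nonneg_right h1.le (hlog j).le
    rw [add_mul, div_mul_cancel₀ _ (hlog j).ne', one_mul] at h2
    exact h2
  have hL3 : ∀ j, L0 j ≤ L j := fun j => by
    have h1 : (L0 j : ℝ) * Real.log (b j) ≤ ∑ j, (L0 j : ℝ) * Real.log (b j) :=
      Finset.single_le_sum (f := fun j => (L0 j : ℝ) * Real.log (b j))
        (fun j _ => mul_nonneg (Nat.cast_nonneg _) (hlog j).le) (mem_univ j)
    have h2 : (L0 j : ℝ) * Real.log (b j) ≤ L j * Real.log (b j) := by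
      refine le_trans ?_ (hL1 j)
      have := abs_nonneg X0
      rw [hX]
      linarith
    have h3 : (L0 j : ℝ) ≤ L j := le_of_mul_le_mul_right h2 (hlog j)
    exact_mod_cast h3
  have h1 := hX0 X hXX0 L hL1
  have hpos : ∀ j, 0 ≤ 1 / (4.68 * ((r : ℝ) + 1)) - ε0 := fun j => by
    by_contra hneg
    push Not at hneg
    have h2 := hL0 j (max (L0 j) 1) (le_max_left _ _)
    have h3 : (1 : ℝ) ≤ ((max (L0 j) 1 : ℕ) : ℝ) := by exact_mod_cast le_max_right _ _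
    have h4 : (1 / (4.68 * ((r : ℝ) + 1)) - ε j) * ((max (L0 j) 1 : ℕ) : ℝ) ≤ 0 :=
      mul_nonpos_of_nonpos_of_nonneg (by have := hε0l j; linarith) (by linarith)
    have h5 : (0 : ℝ) ≤ order (b j) (h j) (comb t (M j)) (max (L0 j) 1) := Nat.cast_nonneg _
    linarith
  have h2 : ∑ j, (order (b j) (h j) (comb t (M j)) (L j) : ℝ) * Real.log (b j) ≤
      ∑ j, (1 / (4.68 * ((r : ℝ) + 1)) - ε0) * (X + Real.log (b j)) := by
    refine Finset.sum_le_sum fun j _ => ?_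
    have h3 := (hL0 j (L j) (hL3 j)).le
    have h4 : (order (b j) (h j) (comb t (M j)) (L j) : ℝ) ≤ (1 / (4.68 * ((r : ℝ) + 1)) - ε0) * L j := by
      refine h3.trans (mul_le_mul_of_nonneg_right ?_ (Nat.cast_nonneg _))
      have := hε0l j
      linarith
    calc _ ≤ ((1 / (4.68 * ((r : ℝ) + 1)) - ε0) * L j) * Real.log (b j) :=
          mul_le_mul_of_nonneg_right h4 (hlog j).le
      _ = (1 / (4.68 * ((r : ℝ) + 1)) - ε0) * (L j * Real.log (b j)) := by ring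
      _ ≤ _ := mul_le_mul_of_nonneg_left (hL2 j) (hpos j)
  have h3 : ∑ j : Fin (r + 1), (1 / (4.68 * ((r : ℝ) + 1)) - ε0) * (X + Real.log (b j)) =
      (1 / 4.68 - ε0 * ((r : ℝ) + 1)) * X + (1 / (4.68 * ((r : ℝ) + 1)) - ε0) * W := by
    rw [← Finset.mul_sum, Finset.sum_add_distrib, ← hW, Finset.sum_const, Finset.card_univ, Fintype.card_fin,
      nsmul_eq_mul]
    push_cast
    field_simp
  rw [h3] at h2
  have h4 : (1 / (4.68 * ((r : ℝ) + 1)) - ε0) * W ≤ W * (1 / (4.68 * ((r : ℝ) + 1))) := by nlinarith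
  have h5 : (W * (1 / (4.68 * ((r : ℝ) + 1))) + 1) * (2 / ε0) ≤ X := by
    have := abs_nonneg X0
    rw [hX]
    linarith
  have h6 : W * (1 / (4.68 * ((r : ℝ) + 1))) + 1 ≤ X * (ε0 / 2) := by
    have h7 := mul_le_mul_of_nonneg_right h5 (by positivity : 0 ≤ ε0 / 2)
    have h8 : (W * (1 / (4.68 * ((r : ℝ) + 1))) + 1) * (2 / ε0) * (ε0 / 2) =
        W * (1 / (4.68 * ((r : ℝ) + 1))) + 1 := by
      field_simp
    linarith
  have h7 : ε0 * X ≤ ε0 * ((r : ℝ) + 1) * X := by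
    have h8 : 0 ≤ ε0 * X * r := by positivity
    nlinarith
  have h8 := h1.trans h2
  nlinarith

/-- the hyperplane -/
lemma hyperplane {r : ℕ} (t : Fin r → ℝ) : ∃ w : Fin (r + 1) → ℤ, w ≠ 0 ∧
    ∀ a : Fin (r + 1) → ℤ, Low t a → ∑ i, w i * a i = 0 := by
  classical
  set s : Set (Fin (r + 1) → ℚ) := {v | ∃ a : Fin (r + 1) → ℤ, Low t a ∧ v = fun i => (a i : ℚ)} with hs
  have hne : Submodule.span ℚ s ≠ ⊤ := by
    intro htop
    obtain ⟨f, hf, -, hli⟩ := Submodule.exists_fun_fin_finrank_span_eq ℚ s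
    have hcard : Module.finrank ℚ (Submodule.span ℚ s) = r + 1 := by
      rw [htop, finrank_top, Module.finrank_fin_fun]
    choose a ha hfa using hf
    set M : Matrix (Fin (r + 1)) (Fin (r + 1)) ℤ := fun j => a (finCongr hcard.symm j) with hM
    have hdet : M.det ≠ 0 := by
      intro h0
      have h1 : (M.map (Int.cast : ℤ → ℚ)).det = 0 := by
        have := congrArg (Int.cast : ℤ → ℚ) h0
        rw [Int.cast_zero] at this
        rw [← this]
        exact (Int.cast_det M).symm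
      have h2 : LinearIndependent ℚ (M.map (Int.cast : ℤ → ℚ)).row := by
        have h3 : (M.map (Int.cast : ℤ → ℚ)).row = f ∘ (finCongr hcard.symm) := by
          funext j i
          have := congrFun (hfa (finCongr hcard.symm j)) i
          simp only [Function.comp_apply]
          rw [this]
          rfl
        rw [h3]
        exact hli.comp _ (finCongr hcard.symm).injective
      rw [Matrix.linearIndependent_rows_iff_isUnit, Matrix.isUnit_iff_isUnit_det, h1] at h2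
      exact not_isUnit_zero h2
    obtain ⟨j, hj⟩ := not_all_low t M hdet
    exact hj (ha _)
  obtain ⟨f, hf0, hf⟩ := Submodule.exists_le_ker_of_lt_top _ (lt_top_iff_ne_top.2 hne)
  -- integer coefficients
  obtain ⟨D, hD⟩ : ∃ D : ℕ, D = ∏ i, (f (Pi.single i 1)).den := ⟨_, rfl⟩
  have hD0 : D ≠ 0 := by
    rw [hD]
    exact Finset.prod_ne_zero_iff.2 fun i _ => (f (Pi.single i 1)).den_nz
  have hint : ∀ i, ∃ z : ℤ, (z : ℚ) = D * f (Pi.single i 1) := by
    intro i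
    obtain ⟨k, hk⟩ : (f (Pi.single i 1)).den ∣ D := by
      rw [hD]
      exact Finset.dvd_prod_of_mem _ (mem_univ i)
    refine ⟨k * (f (Pi.single i 1)).num, ?_⟩
    push_cast
    rw [hk]
    push_cast
    have h1 : ((f (Pi.single i 1)).den : ℚ) * f (Pi.single i 1) = (f (Pi.single i 1)).num :=
      Rat.den_mul_eq_num _
    rw [← h1]
    ring
  choose w hw using hint
  have hfe : ∀ v : Fin (r + 1) → ℚ, f v = ∑ i, v i * f (Pi.single i 1) := by
    intro v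
    conv_lhs => rw [← Finset.univ_sum_single v, map_sum]
    refine Finset.sum_congr rfl fun i _ => ?_
    have : (Pi.single i (v i) : Fin (r + 1) → ℚ) = v i • Pi.single i 1 := by
      rw [← Pi.single_smul, smul_eq_mul, mul_one]
    rw [this, map_smul, smul_eq_mul]
  refine ⟨w, fun h0 => hf0 ?_, fun a ha => ?_⟩
  · refine LinearMap.ext fun v => ?_
    rw [hfe v]
    refine Finset.sum_eq_zero fun i _ => ?_
    have h1 := hw i
    rw [h0] at h1
    simp only [Pi.zero_apply, Int.cast_zero] at h1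
    have h2 : f (Pi.single i 1) = 0 := by
      rcases mul_eq_zero.1 h1.symm with h3 | h3
      · exact absurd (by exact_mod_cast h3) hD0
      · exact h3
    rw [h2, mul_zero]
  · have h1 : f (fun i => (a i : ℚ)) = 0 := hf (Submodule.subset_span ⟨a, ha, rfl⟩)
    rw [hfe] at h1
    have h2 : ((∑ i, w i * a i : ℤ) : ℚ) = D * ∑ i, (a i : ℚ) * f (Pi.single i 1) := by
      push_cast
      rw [Finset.mul_sum]
      refine Finset.sum_congr rfl fun i _ => ?_
      rw [hw i]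
      ring
    rw [h1, mul_zero] at h2
    exact_mod_cast h2

/-- **Main theorem.** Let `F C m = m + C √((m + 1) log (m + 2))`, let `N_(b,h)(x; L)` be the order defined above,
and let `y(t, a) = a_0 ζ(3) + a_1 t_1 + … + a_r t_r` for real `t_i` and integers `a_i`.

(1) For all `r`, `H` and `h ≥ 1` there is `C` such that for all real `t_1, …, t_r`, all nonsingular integral
matrices `M` of order `r + 1` with entries of absolute value at most `H` and all bases `b_j ≥ 2` and lengths `L_j`: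
`L_j log b_j ≤ 4.68 ∑_i F C (N_(b_i,h)(y(t, M_i); L_i)) log b_i` for some `j`, `M_i` being the rows of `M`.

(2) For all real `t_1, …, t_r` there is an integer vector `w ≠ 0` such that
`limsup N_(b,h)(y(t, a); L) / L ≥ 1 / (4.68 (r + 1))` for all `b ≥ 2`, all `h ≥ 1` and all integer vectors `a` which
are not orthogonal to `w`.

(3) In particular, for every `d ≥ 1` there is an integer vector `(w_1, …, w_d) ≠ 0` such that
`limsup N_(b,h)(P(ζ(3)); L) / L ≥ 1 / (4.68 d)` for all `b ≥ 2`, all `h ≥ 1` and all integer polynomials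
`P = a_0 + a_1 X + … + a_d X ^ d` with `∑ w_i a_i ≠ 0`.

(4) `liminf N_(b,h)(u ζ(3); L) / L ≥ 1 / 4.68` for all `b ≥ 2`, `h ≥ 1` and integers `u ≠ 0`. -/
theorem result :
    (∀ r H h : ℕ, 1 ≤ h → ∃ C : ℝ,
      ∀ (t : Fin r → ℝ) (M : Matrix (Fin (r + 1)) (Fin (r + 1)) ℤ), M.det ≠ 0 → (∀ i j, |M i j| ≤ H) →
      ∀ b : Fin (r + 1) → ℕ, (∀ j, 2 ≤ b j) → ∀ L : Fin (r + 1) → ℕ,
        ∃ j, (L j : ℝ) * Real.log (b j) ≤ 4.68 *
          ∑ i, F C (order (b i) h (comb t (M i)) (L i)) * Real.log (b i)) ∧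
    (∀ (r : ℕ) (t : Fin r → ℝ), ∃ w : Fin (r + 1) → ℤ, w ≠ 0 ∧
      ∀ a : Fin (r + 1) → ℤ, ∑ i, w i * a i ≠ 0 → ∀ b h : ℕ, 2 ≤ b → 1 ≤ h → ∀ ε : ℝ, 0 < ε →
      ∃ᶠ L : ℕ in Filter.atTop,
        (1 / (4.68 * ((r : ℝ) + 1)) - ε) * L ≤ order b h (comb t a) L) ∧
    (∀ d : ℕ, 1 ≤ d → ∃ w : Fin d → ℤ, w ≠ 0 ∧
      ∀ P : Polynomial ℤ, P.natDegree ≤ d → ∑ i : Fin d, w i * P.coeff ((i : ℕ) + 1) ≠ 0 →
      ∀ b h : ℕ, 2 ≤ b → 1 ≤ h → ∀ ε : ℝ, 0 < ε → ∃ᶠ L : ℕ in Filter.atTop,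
        (1 / (4.68 * (d : ℝ)) - ε) * L ≤ order b h (Polynomial.aeval z3 P) L) ∧
    (∀ u : ℤ, u ≠ 0 → ∀ b h : ℕ, 2 ≤ b → 1 ≤ h → ∀ ε : ℝ, 0 < ε →
      ∀ᶠ L : ℕ in Filter.atTop, (1 / 4.68 - ε) * L ≤ order b h (u * z3) L) := by
  have h2 : ∀ (r : ℕ) (t : Fin r → ℝ), ∃ w : Fin (r + 1) → ℤ, w ≠ 0 ∧
      ∀ a : Fin (r + 1) → ℤ, ∑ i, w i * a i ≠ 0 → ∀ b h : ℕ, 2 ≤ b → 1 ≤ h → ∀ ε : ℝ, 0 < ε →
      ∃ᶠ L : ℕ in Filter.atTop,
        (1 / (4.68 * ((r : ℝ) + 1)) - ε) * L ≤ order b h (comb t a) L := by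
    intro r t
    obtain ⟨w, hw0, hw⟩ := hyperplane t
    refine ⟨w, hw0, fun a ha b h hb hh ε hε => ?_⟩
    intro hev
    apply ha
    apply hw
    refine ⟨b, h, ε, hb, hh, hε, ?_⟩
    filter_upwards [hev] with L hL
    exact not_le.1 hL
  refine ⟨?_, h2, ?_, fun u hu b h hb hh ε hε => single u hu b h hb hh ε hε⟩
  · intro r H h hh
    obtain ⟨C, _, hC⟩ := general r H h hh
    exact ⟨C, hC⟩
  · intro d hd
    obtain ⟨r, rfl⟩ : ∃ r, d = r + 1 := ⟨d - 1, by omega⟩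
    obtain ⟨w, hw0, hw⟩ := h2 r (fun i => z3 ^ ((i : ℕ) + 2))
    refine ⟨w, hw0, fun P hP hPw b h hb hh ε hε => ?_⟩
    have h3 := hw (fun i => P.coeff ((i : ℕ) + 1)) hPw b h hb hh ε hε
    -- the constant term does not matter
    have h4 : Polynomial.aeval z3 P = comb (fun i : Fin r => z3 ^ ((i : ℕ) + 2))
        (fun i => P.coeff ((i : ℕ) + 1)) + (P.coeff 0 : ℤ) := by
      rw [Polynomial.aeval_eq_sum_range' (n := r + 1 + 1) (by omega), Finset.sum_range_succ',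
        Finset.sum_range_succ', ← Fin.sum_univ_eq_sum_range (fun i => P.coeff (i + 1 + 1) • z3 ^ (i + 1 + 1)) r]
      unfold comb
      simp only [zsmul_eq_mul, pow_zero, mul_one, zero_add, pow_one, Fin.val_succ, Fin.val_zero]
      rw [add_comm (∑ i : Fin r, _) _]
    have h5 : ∀ L, order b h (Polynomial.aeval z3 P) L = order b h (comb (fun i : Fin r => z3 ^ ((i : ℕ) + 2))
        (fun i => P.coeff ((i : ℕ) + 1))) L := by
      intro L
      rw [h4]
      unfold order Expansion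
      congr 1
      ext m
      constructor
      · rintro ⟨s, c, ⟨hs, n, hn⟩, hr⟩
        exact ⟨s, c, ⟨hs, n - P.coeff 0, by convert hn using 1; push_cast; ring⟩, hr⟩
      · rintro ⟨s, c, ⟨hs, n, hn⟩, hr⟩
        exact ⟨s, c, ⟨hs, n + P.coeff 0, by convert hn using 1; push_cast; ring⟩, hr⟩
    refine h3.mono fun L hL => ?_
    rw [h5]
    push_cast
    exact hL

end Pool.Agent.Results.MP_48b3e2_nt.DigitsOfPolynomialValues
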