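import Pool.Agent.R353.HZ.Gam
import Pool.Agent.R353.HZ.Diag
import Pool.Agent.Y549.PE.Core

/-!
# Almost all values `ζ(3, x)`, together with `Γ(x), ψ(x), ζ(2, x), ζ(4, x), …`, over arbitrary constants

`ζ(k, x) = ∑ 1 / (n + x) ^ k`, so `ζ(3) = ζ(3, 1)`, at rational points `x`, together with `Γ(x)` and
`-ψ(x) - γ = ∑ (1 / (n + x) - 1 / (n + 1))`. (1) A lower bound `T ^ (-B)` for the values of polynomials in arbitrary
constants (such as `ζ(3)`, `π`, …) and in these numbers at `n` rational points with denominators at most `T`, apart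
from few exceptional `n`-tuples of points. (2) One sparse set of exceptional points for all orders, degrees and
heights.
-/

set_option autoImplicit false

open Finset

namespace Pool.Agent.Results.MP_48b3e2_nt.HurwitzAlmostAll

open Pool.Agent.R353.HZ Pool.Agent.Y549.PE

/-- `zf 0 = Γ`, `zf 1 x = ∑ (1 / (n + x) - 1 / (n + 1)) = -ψ(x) - γ` and `zf k x = ζ(k, x) = ∑ 1 / (n + x) ^ k` for
`k ≥ 2`, so that `zf 3 1 = ζ(3)` -/
noncomputable def zf (k : ℕ) (x : ℝ) : ℝ :=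
  if k = 0 then Real.Gamma x
  else if k = 1 then ∑' n : ℕ, (1 / ((n : ℝ) + x) - 1 / ((n : ℝ) + 1))
  else ∑' n : ℕ, 1 / ((n : ℝ) + x) ^ k

theorem zf_zero : zf 0 = Real.Gamma := by
  funext x
  rw [zf, if_pos rfl]

theorem zf_succ (k : ℕ) : zf (k + 1) = hz k := by
  funext x
  rw [zf, if_neg (Nat.succ_ne_zero k), hz]
  rcases Nat.eq_zero_or_pos k with hk | hk
  · subst hk
    rw [if_pos rfl]
    refine tsum_congr fun n => ?_
    rw [cr, if_pos rfl, zero_add, pow_one]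
  · rw [if_neg (by omega)]
    refine tsum_congr fun n => ?_
    rw [cr, if_neg hk.ne', sub_zero]

theorem zf_an (k : ℕ) : AnalyticOnNhd ℝ (zf k) (Set.Ioi 0) := by
  rcases k with _ | k
  · rw [zf_zero]
    exact Gamma_an
  · rw [zf_succ]
    exact hz_an k

theorem AInd_equiv {σ σ' : Type} [Fintype σ] [DecidableEq σ] [Fintype σ'] [DecidableEq σ'] (e : σ' ≃ σ)
    (f : σ → ℝ → ℝ) {a b : ℝ} (h : Pool.Agent.Y120.AInd f a b) :
    Pool.Agent.Y120.AInd (fun i => f (e i)) a b := by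
  intro d p hp
  have h1 := h d (fun v => p fun i => v (e i)) (fun t ht => ?_)
  · funext v
    have h2 := congrFun h1 fun i => v (e.symm i)
    simpa using h2
  · refine Eq.trans ?_ (hp t ht)
    rw [← Equiv.sum_comp (Equiv.arrowCongr e (Equiv.refl (Fin (d + 1))))]
    refine Finset.sum_congr rfl fun v _ => ?_
    beta_reduce
    rw [← Equiv.prod_comp e fun i => f i t ^ ((e.arrowCongr (Equiv.refl (Fin (d + 1)))) v i : ℕ)]
    simp [Equiv.arrowCongr]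

theorem zf_ind (w : ℕ) (a b : ℝ) (ha : 0 < a) (hab : a < b) :
    Pool.Agent.Y120.AInd (fun k : Fin (w + 1) => zf k) a b := by
  have h1 := AInd_equiv (finSuccEquiv w) (fun o : Option (Fin w) => hg o) (aindG w a b ha hab)
  refine (congrArg (fun F => Pool.Agent.Y120.AInd F a b) ?_).mp h1
  funext k
  refine Fin.cases ?_ (fun k => ?_) k
  · rw [finSuccEquiv_zero, Fin.val_zero, zf_zero]
    rfl
  · rw [finSuccEquiv_succ, Fin.val_succ, zf_succ]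
    rfl

/-- `P(ξ, Y)`: the polynomial `P`, with constants `ξ` in place of the variables of the first group -/
noncomputable def spec {G τ : Type} (ξ : G → ℂ) (P : MvPolynomial (G ⊕ τ) ℤ) : MvPolynomial τ ℂ :=
  MvPolynomial.eval₂ (Int.castRingHom (MvPolynomial τ ℂ))
    (Sum.elim (fun i => MvPolynomial.C (ξ i)) MvPolynomial.X) P

/-- exponents -/
noncomputable def ff {n w D : ℕ} (e : Fin n → Fin w → Fin (D + 1)) : (Fin n × Fin w) →₀ ℕ :=
  Finsupp.equivFunOnFinite.symm fun x => (e x.1 x.2 : ℕ)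

theorem ff_inj {n w D : ℕ} : Function.Injective (ff (n := n) (w := w) (D := D)) := by
  intro e e' h
  have h1 := Finsupp.equivFunOnFinite.symm.injective h
  funext j i
  exact Fin.ext (congrFun h1 (j, i))

theorem spec_eq {n w g D : ℕ} (ξ : Fin g → ℂ) (P : MvPolynomial (Fin g ⊕ (Fin n × Fin w)) ℤ)
    (hP : ∀ z, P.degreeOf z ≤ D) : spec ξ P = ∑ e : Fin n → Fin w → Fin (D + 1),
      MvPolynomial.monomial (ff e) (cf ξ P e) := by
  have h0 : spec ξ P = @MvPolynomial.aeval ℤ (MvPolynomial (Fin n × Fin w) ℂ) (Fin g ⊕ (Fin n × Fin w)) _ _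
      (Ring.toIntAlgebra _) (Sum.elim (fun i => MvPolynomial.C (ξ i)) MvPolynomial.X) P := rfl
  rw [h0, aeval_R _ P hP]
  refine Finset.sum_congr rfl fun e _ => ?_
  simp only [Sum.elim_inl, Sum.elim_inr]
  have h1 : @MvPolynomial.aeval ℤ (MvPolynomial (Fin n × Fin w) ℂ) (Fin g) _ _
      (Ring.toIntAlgebra _) (fun i => (MvPolynomial.C (ξ i) : MvPolynomial (Fin n × Fin w) ℂ)) (Qe P e) =
      MvPolynomial.C (cf ξ P e) := by
    rw [aeval_Qe, cf, map_sum]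
    refine Finset.sum_congr rfl fun v _ => ?_
    rw [map_mul, map_prod, map_intCast]
    simp only [map_pow]
  rw [h1, MvPolynomial.monomial_eq, Finsupp.prod_fintype _ _ (fun i => pow_zero _), Fintype.prod_prod_type]
  rfl

theorem spec_coeff {n w g D : ℕ} (ξ : Fin g → ℂ) (P : MvPolynomial (Fin g ⊕ (Fin n × Fin w)) ℤ)
    (hP : ∀ z, P.degreeOf z ≤ D) (m : (Fin n × Fin w) →₀ ℕ) :
    (∃ e : Fin n → Fin w → Fin (D + 1), (spec ξ P).coeff m = cf ξ P e) ∨ (spec ξ P).coeff m = 0 := by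
  classical
  rw [spec_eq ξ P hP, MvPolynomial.coeff_sum]
  simp only [MvPolynomial.coeff_monomial]
  by_cases h : ∃ e : Fin n → Fin w → Fin (D + 1), ff e = m
  · obtain ⟨e, he⟩ := h
    left
    refine ⟨e, ?_⟩
    rw [Finset.sum_eq_single e]
    · rw [if_pos he]
    · intro e' _ hne
      rw [if_neg]
      intro h'
      exact hne (ff_inj (h'.trans he.symm))
    · intro h'
      exact absurd (Finset.mem_univ _) h'
  · right
    refine Finset.sum_eq_zero fun e _ => ?_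
    rw [if_neg]
    intro h'
    exact h ⟨e, h'⟩

theorem general (n w g D : ℕ) (hn : 1 ≤ n) (a b A ε : ℝ) (ha : 0 < a) (hab : a < b) (hε : 0 < ε) :
    ∃ B C : ℝ, 0 ≤ B ∧ 0 < C ∧ ∀ T : ℝ, 1 ≤ T → ∀ ξ : Fin g → ℂ, ∃ S : Finset (Fin n → ℚ),
      (S.card : ℝ) ≤ C * T ^ (2 * ((n : ℝ) - 1) + ε) ∧ ∀ q : Fin n → ℚ,
      (∀ l, a ≤ q l ∧ q l ≤ b ∧ ((q l).den : ℝ) ≤ T) → q ∉ S →
      ∀ P : MvPolynomial (Fin g ⊕ (Fin n × Fin (w + 1))) ℤ, (∀ z, P.degreeOf z ≤ D) →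
        (∀ s, |((P.coeff s : ℤ) : ℝ)| ≤ T ^ A) → spec ξ P ≠ 0 → ∀ m : (Fin n × Fin (w + 1)) →₀ ℕ,
        T ^ (-B) * ‖(spec ξ P).coeff m‖ <
          ‖MvPolynomial.aeval (Sum.elim ξ fun x : Fin n × Fin (w + 1) => ((zf x.2 (q x.1) : ℝ) : ℂ)) P‖ := by
  have han : ∀ k : Fin (w + 1), AnalyticOnNhd ℝ (zf k) (Set.Icc a b) := fun k =>
    (zf_an k).mono fun t ht => ha.trans_le ht.1
  obtain ⟨B, C, hB, hC, h⟩ := core (G := Fin g) (D := D) hn (fun k : Fin (w + 1) => zf k) a b hab han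
    (zf_ind w a b ha hab) A ε hε
  refine ⟨B, C, hB, hC, fun T hT ξ => ?_⟩
  obtain ⟨S, hS, hq⟩ := h T hT ξ
  refine ⟨S, hS, fun q hqT hqS P hPd hPc hne m => ?_⟩
  have h1 := hq q hqT hqS P hPd hPc
  obtain ⟨e0, he0⟩ : ∃ e : Fin n → Fin (w + 1) → Fin (D + 1), cf ξ P e ≠ 0 := by
    by_contra hcon
    push Not at hcon
    apply hne
    rw [spec_eq ξ P hPd]
    refine Finset.sum_eq_zero fun e _ => ?_
    rw [hcon e, map_zero]
  have hpos : 0 < T ^ (-B) := Real.rpow_pos_of_pos (by linarith) _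
  have h2 : 0 < ‖MvPolynomial.aeval (Sum.elim ξ fun x : Fin n × Fin (w + 1) => ((zf x.2 (q x.1) : ℝ) : ℂ)) P‖ := by
    refine lt_of_le_of_lt ?_ (not_le.1 fun hle => he0 (h1 e0 hle))
    positivity
  rcases spec_coeff ξ P hPd m with ⟨e, he⟩ | hm
  · rw [he]
    by_contra hcon
    have h3 := h1 e (not_lt.1 hcon)
    rw [h3, norm_zero, mul_zero] at hcon
    exact hcon h2
  · rw [hm, norm_zero, mul_zero]
    exact h2

/-- the property of `x` for the parameters `w`, `g`, `D`, `A`, `k` -/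
def Prop5 (ξ : ℕ → ℂ) (p : ℕ × ℕ × ℕ × ℕ × ℕ) (T : ℝ) (x : ℚ) : Prop :=
  1 / ((p.2.2.2.2 : ℝ) + 1) ≤ x → (x : ℝ) ≤ (p.2.2.2.2 : ℝ) + 2 →
    ∀ P : MvPolynomial (Fin p.2.1 ⊕ (Fin 1 × Fin (p.1 + 1))) ℤ, (∀ z, P.degreeOf z ≤ p.2.2.1) →
      (∀ s, |((P.coeff s : ℤ) : ℝ)| ≤ T ^ (p.2.2.2.1 : ℝ)) →
      MvPolynomial.aeval (Sum.elim (fun i : Fin p.2.1 => ξ i)
        fun y : Fin 1 × Fin (p.1 + 1) => ((zf y.2 x : ℝ) : ℂ)) P = 0 →
      spec (fun i : Fin p.2.1 => ξ i) P = 0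

theorem prop5 (ξ : ℕ → ℂ) (p : ℕ × ℕ × ℕ × ℕ × ℕ) (ε : ℝ) (hε : 0 < ε) :
    ∃ C : ℝ, ∀ T : ℝ, 1 ≤ T → ∃ S : Finset ℚ, (S.card : ℝ) ≤ C * T ^ ε ∧
      ∀ x : ℚ, (x.den : ℝ) ≤ T → x ∉ S → Prop5 ξ p T x := by
  classical
  obtain ⟨w, g, D, A, k⟩ := p
  obtain ⟨B, C, hB, hC, h⟩ := general 1 w g D le_rfl (1 / ((k : ℝ) + 1)) ((k : ℝ) + 2) A ε (by positivity)
    (by
      have h1 : (0 : ℝ) ≤ k := Nat.cast_nonneg k
      have h2 : 1 / ((k : ℝ) + 1) ≤ 1 := by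
        rw [div_le_one (by positivity)]
        linarith
      linarith) hε
  refine ⟨C, fun T hT => ?_⟩
  obtain ⟨S, hS, hq⟩ := h T hT (fun i : Fin g => ξ i)
  refine ⟨S.image fun q => q 0, ?_, fun x hx hxS => ?_⟩
  · have h1 : (((S.image fun q => q 0).card : ℕ) : ℝ) ≤ (S.card : ℝ) := by exact_mod_cast Finset.card_image_le
    refine h1.trans (hS.trans (le_of_eq ?_))
    norm_num
  · intro hx1 hx2 P hPd hPc hP0
    by_contra hne
    have hqS : (fun _ : Fin 1 => x) ∉ S := fun hm => hxS (Finset.mem_image.2 ⟨_, hm, rfl⟩)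
    have h1 := hq (fun _ => x) (fun _ => ⟨hx1, hx2, hx⟩) hqS P hPd hPc hne 0
    have h2 : MvPolynomial.aeval (Sum.elim (fun i : Fin g => ξ i)
        fun y : Fin 1 × Fin (w + 1) => ((zf y.2 ((fun _ : Fin 1 => x) y.1 : ℚ) : ℝ) : ℂ)) P = 0 := hP0
    rw [h2, norm_zero] at h1
    have h3 : 0 ≤ T ^ (-B) * ‖(spec (fun i : Fin g => ξ i) P).coeff 0‖ :=
      mul_nonneg (Real.rpow_nonneg (by linarith) _) (norm_nonneg _)
    linarith

/-- the change of variables -/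
def em (g w : ℕ) : Fin g ⊕ Fin w → Fin g ⊕ (Fin 1 × Fin w) := Sum.map id fun i => (0, i)

theorem em_inj (g w : ℕ) : Function.Injective (em g w) := by
  refine Function.Injective.sumMap Function.injective_id ?_
  intro i i' h
  exact (Prod.mk.inj h).2

theorem em_surj (g w : ℕ) : Function.Surjective (em g w) := by
  rintro (z | ⟨z0, z⟩)
  · exact ⟨Sum.inl z, rfl⟩
  · refine ⟨Sum.inr z, ?_⟩
    have h0 : z0 = 0 := Subsingleton.elim _ _
    rw [h0]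
    rfl

/-- **Almost all Hurwitz zeta values.** `zf 0 = Γ`, `zf 1 = -ψ - γ`, `zf k x = ζ(k, x)` for `k ≥ 2`;
`spec ξ P = P(ξ, Y)`. -/
theorem result :
    (∀ (n w g D : ℕ), 1 ≤ n → ∀ a b A ε : ℝ, 0 < a → a < b → 0 < ε →
      ∃ B C : ℝ, 0 ≤ B ∧ 0 < C ∧ ∀ T : ℝ, 1 ≤ T → ∀ ξ : Fin g → ℂ, ∃ S : Finset (Fin n → ℚ),
      (S.card : ℝ) ≤ C * T ^ (2 * ((n : ℝ) - 1) + ε) ∧ ∀ q : Fin n → ℚ,
      (∀ l, a ≤ q l ∧ q l ≤ b ∧ ((q l).den : ℝ) ≤ T) → q ∉ S →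
      ∀ P : MvPolynomial (Fin g ⊕ (Fin n × Fin (w + 1))) ℤ, (∀ z, P.degreeOf z ≤ D) →
        (∀ s, |((P.coeff s : ℤ) : ℝ)| ≤ T ^ A) → spec ξ P ≠ 0 → ∀ m : (Fin n × Fin (w + 1)) →₀ ℕ,
        T ^ (-B) * ‖(spec ξ P).coeff m‖ <
          ‖MvPolynomial.aeval (Sum.elim ξ fun x : Fin n × Fin (w + 1) => ((zf x.2 (q x.1) : ℝ) : ℂ)) P‖) ∧
    (∀ ξ : ℕ → ℂ, ∃ E : Set ℚ, (∀ ε : ℝ, 0 < ε → ∃ C : ℝ, ∀ T : ℝ, 1 ≤ T →
        {x ∈ E | (x.den : ℝ) ≤ T}.Finite ∧ ({x ∈ E | (x.den : ℝ) ≤ T}.ncard : ℝ) ≤ C * T ^ ε) ∧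
      ∀ (w g D A : ℕ) (a b : ℝ), 0 < a → ∃ N : ℕ, ∀ x : ℚ, a ≤ x → x ≤ b → N ≤ x.den → x ∉ E →
        ∀ P : MvPolynomial (Fin g ⊕ Fin (w + 1)) ℤ, (∀ z, P.degreeOf z ≤ D) →
          (∀ s, |((P.coeff s : ℤ) : ℝ)| ≤ (x.den : ℝ) ^ A) →
          MvPolynomial.aeval (Sum.elim (fun i : Fin g => ξ i) fun k : Fin (w + 1) => ((zf k x : ℝ) : ℂ)) P = 0 →
          spec (fun i : Fin g => ξ i) P = 0) := by
  classical
  refine ⟨fun n w g D hn a b A ε ha hab hε => general n w g D hn a b A ε ha hab hε, fun ξ => ?_⟩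
  obtain ⟨E, hE, hEp⟩ := diag (fun i => Prop5 ξ ((Denumerable.eqv (ℕ × ℕ × ℕ × ℕ × ℕ)).symm i))
    (fun i ε hε => prop5 ξ _ ε hε)
  refine ⟨E, hE, fun w g D A a b ha => ?_⟩
  obtain ⟨k, hk⟩ := exists_nat_gt (max (1 / a) b)
  obtain ⟨N, hN⟩ := hEp ((Denumerable.eqv (ℕ × ℕ × ℕ × ℕ × ℕ)) (w, g, D, A, k))
  refine ⟨N, fun x hax hxb hNx hxE P hPd hPc hP0 => ?_⟩
  obtain ⟨T, hT, h⟩ := hN x hNx hxE
  rw [Equiv.symm_apply_apply] at h
  have hk1 : 1 / a < k := (le_max_left _ _).trans_lt hk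
  have hk2 : b < k := (le_max_right _ _).trans_lt hk
  have hka : 1 / ((k : ℝ) + 1) ≤ a := by
    rw [div_lt_iff₀ ha] at hk1
    rw [div_le_iff₀ (by positivity)]
    nlinarith
  have h1 := h (hka.trans hax) (by
    change (x : ℝ) ≤ (k : ℝ) + 2
    linarith) (MvPolynomial.rename (em g (w + 1)) P) (fun z => ?_) (fun s => ?_) ?_
  · -- back
    have h2 := congrArg ((MvPolynomial.aeval (R := ℂ)
      (fun y : Fin 1 × Fin (w + 1) => (MvPolynomial.X y.2 : MvPolynomial (Fin (w + 1)) ℂ)) :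
      MvPolynomial (Fin 1 × Fin (w + 1)) ℂ →ₐ[ℂ] MvPolynomial (Fin (w + 1)) ℂ) :
      MvPolynomial (Fin 1 × Fin (w + 1)) ℂ →+* MvPolynomial (Fin (w + 1)) ℂ) h1
    rw [map_zero] at h2
    rw [← h2, spec, spec, MvPolynomial.eval₂_rename, MvPolynomial.eval₂_comp_left]
    congr 1
    · exact RingHom.ext_int _ _
    · funext z
      rcases z with z | z
      · simp [em]
      · simp [em]
  · obtain ⟨z, rfl⟩ := em_surj g (w + 1) z
    rw [MvPolynomial.degreeOf_rename_of_injective (em_inj g (w + 1))]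
    exact hPd z
  · have hT1 : (1 : ℝ) ≤ x.den := by exact_mod_cast x.pos
    have hT2 : ((x.den : ℝ)) ^ A ≤ T ^ ((A : ℕ) : ℝ) := by
      rw [Real.rpow_natCast]
      exact pow_le_pow_left₀ (by positivity) hT A
    by_cases hs : ∃ u, Finsupp.mapDomain (em g (w + 1)) u = s
    · obtain ⟨u, rfl⟩ := hs
      rw [MvPolynomial.coeff_rename_mapDomain _ (em_inj g (w + 1))]
      exact (hPc u).trans hT2
    · rw [MvPolynomial.coeff_rename_eq_zero _ _ _ (fun u hu => absurd ⟨u, hu⟩ hs)]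
      simp only [Int.cast_zero, abs_zero]
      exact Real.rpow_nonneg (by linarith) _
  · rw [MvPolynomial.aeval_rename]
    refine Eq.trans ?_ hP0
    congr 2
    funext z
    rcases z with z | z <;> rfl

end Pool.Agent.Results.MP_48b3e2_nt.HurwitzAlmostAll
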