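import Mathlib
import Pool.Agent.R352.Q.Three

set_option autoImplicit false

/-!
# `ζ(3)` as a triple integral: the integral over a cube and the complementary tail

For an integer `k ≥ 2` let `ω = exp (2 π i / k)`. For a positive rational number `x` let `C_k(x)` be
the number `(-1)^k / k! * ∫ (∑_j ω^j log t_j)^k exp (-∑_j t_j) dt`, the integral being over the
cube `(0, x)^k`, and let `R_k(x)` be the same integral over the rest `(0, ∞)^k \ (0, x)^k` of the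
octant.

(1) `C_k(x)` and `R_k(x)` are real, and `ζ(k) = C_k(x) + R_k(x)`. For `k = 3`,
`R_3(x) = 1/12 * ∫ log(t_1 t_2 / t_3²)³ exp (-t_1 - t_2 - t_3) dt`, the integral being over the
points of the positive octant with `max t_i ≥ x`.

(2) The numbers `e` and `C_k(x)` (`k ≥ 2`, `x` positive rational) are algebraically independent.

(3) At most one of the numbers `ζ(3)` and `R_3(x)` (`x` positive rational) is algebraic over `ℚ(e)`.
If `ζ(3)` is algebraic over `ℚ(e)`, then `e` and the numbers `R_3(x)` (`x` positive rational) are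
algebraically independent over `ℚ`.

(4) Let `y_1, …, y_r` be real numbers and `K` a set of integers `k ≥ 2` for which `ζ(k)` is algebraic
over `ℚ(e, y_1, …, y_r)`. At most `r` of the numbers `y_1, …, y_r` and `R_k(x)` (`k ∈ K`, `x` positive
rational) are algebraic over `ℚ(e)`, and for all finite sets `S` of pairs `(k, x)` (`k ∈ K`, `x` positive
rational) the field `ℚ(e, y_1, …, y_r, R_k(x) : (k, x) ∈ S)` has transcendence degree at least
`|S| + 1`.

(5) For `c ≥ 0` at most `c + 1` of the numbers `π, ζ(3), ζ(5), …, ζ(2c+1)` and `R_k(x)` (`k ≥ 2`, `k` even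
or `k ≤ 2c + 1`, `x` positive rational) are algebraic over `ℚ(e)`.
-/

namespace Pool.Agent.Results.MP_48b3e2_nt.IncompleteZetaValues

open Set MeasureTheory

/-- the zeta value `ζ(s) = ∑ 1 / n^s` -/
noncomputable def zeta (s : ℕ) : ℝ := ∑' n : ℕ, 1 / ((n : ℝ) + 1) ^ s

/-- `ω = exp (2 π i / k)` -/
noncomputable def root (k : ℕ) : ℂ := Complex.exp (2 * Real.pi * Complex.I / k)

/-- `(∑_j ω^j log t_j)^k exp (-∑_j t_j)` -/
noncomputable def integrand (k : ℕ) (t : Fin k → ℝ) : ℂ :=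
  (∑ j : Fin k, root k ^ (j : ℕ) * (Real.log (t j) : ℂ)) ^ k * ((Real.exp (-∑ j, t j) : ℝ) : ℂ)

/-- the open cube `(0, x)^k` -/
def cube (k : ℕ) (x : ℝ) : Set (Fin k → ℝ) := {t | ∀ j, 0 < t j ∧ t j < x}

/-- `(0, ∞)^k \ (0, x)^k` -/
def rest (k : ℕ) (x : ℝ) : Set (Fin k → ℝ) := {t | (∀ j, 0 < t j) ∧ ∃ j, x ≤ t j}

/-- `C_k(x)`, as a complex number -/
noncomputable def cubeIntegral (k : ℕ) (x : ℚ) : ℂ := (-1) ^ k / k.factorial * ∫ t in cube k x, integrand k t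

/-- `R_k(x)`, as a complex number -/
noncomputable def tailIntegral (k : ℕ) (x : ℚ) : ℂ := (-1) ^ k / k.factorial * ∫ t in rest k x, integrand k t

/-- `C_k(x)`, as a real number -/
noncomputable def C (k : ℕ) (x : ℚ) : ℝ := (cubeIntegral k x).re

/-- `R_k(x)`, as a real number -/
noncomputable def R (k : ℕ) (x : ℚ) : ℝ := (tailIntegral k x).re

/-- `x` is algebraic over `ℚ(e, y_1, …, y_r)` -/
def AlgebraicOverEAnd {r : ℕ} (y : Fin r → ℝ) (x : ℝ) : Prop :=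
  IsAlgebraic (IntermediateField.adjoin ℚ ({Real.exp 1} ∪ range y)) x

/-- `x` is algebraic over `ℚ(e)` -/
def AlgebraicOverE (x : ℝ) : Prop := IsAlgebraic (IntermediateField.adjoin ℚ {Real.exp 1}) x

/-- the set of names of those of the numbers `y_1, …, y_r` and `R_k(x)` (`k ∈ K`, `x` positive rational)
which are algebraic over `ℚ(e)` -/
def algebraicNames {r : ℕ} (y : Fin r → ℝ) (K : Set ℕ) : Set (Fin r ⊕ (ℕ × ℚ)) :=
  {i | Sum.elim (fun j => AlgebraicOverE (y j)) (fun p => p.1 ∈ K ∧ 0 < p.2 ∧ AlgebraicOverE (R p.1 p.2)) i}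

/-- the numbers `π, ζ(3), ζ(5), …, ζ(2c+1)` -/
noncomputable def constants (c : ℕ) : Fin (c + 1) → ℝ := Fin.cons Real.pi fun i : Fin c => zeta (2 * i + 3)

theorem cube_eq (k : ℕ) (x : ℝ) : cube k x = Pool.Agent.R352.Q.cube k (Ioo 0 x) := by
  ext t
  simp [cube, Pool.Agent.R352.Q.cube]

theorem rest_eq (k : ℕ) (x : ℝ) :
    rest k x = Pool.Agent.R352.Q.cube k (Ioi 0) \ Pool.Agent.R352.Q.cube k (Ioo 0 x) := by
  ext t
  simp only [rest, Pool.Agent.R352.Q.cube, mem_sdiff, mem_univ_pi, mem_Ioi, mem_Ioo]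
  constructor
  · rintro ⟨h1, j, h2⟩
    exact ⟨h1, fun h => absurd (h j).2 (not_lt.2 h2)⟩
  · rintro ⟨h1, h2⟩
    push Not at h2
    obtain ⟨j, hj⟩ := h2
    exact ⟨h1, j, hj (h1 j)⟩

theorem cubeIntegral_eq {k : ℕ} (hk : 2 ≤ k) {x : ℚ} (hx : 0 < x) :
    cubeIntegral k x = (Pool.Agent.R352.Q.Zk k x : ℂ) := by
  have hx' : (0 : ℝ) < x := by exact_mod_cast hx
  rw [← Pool.Agent.R352.Q.NI_box hk hx', cubeIntegral, cube_eq]
  rfl

theorem tailIntegral_eq {k : ℕ} (hk : 2 ≤ k) {x : ℚ} (hx : 0 < x) :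
    tailIntegral k x = (Pool.Agent.R352.Q.Rk k x : ℂ) := by
  have hx' : (0 : ℝ) < x := by exact_mod_cast hx
  have h : tailIntegral k x = Pool.Agent.R352.Q.NI k
      (Pool.Agent.R352.Q.cube k (Ioi 0) \ Pool.Agent.R352.Q.cube k (Ioo 0 x)) := by
    rw [tailIntegral, rest_eq]
    rfl
  rw [h, Pool.Agent.R352.Q.NI_diff, Pool.Agent.R352.Q.NI_full hk, Pool.Agent.R352.Q.NI_box hk hx',
    Pool.Agent.R352.Q.Rk]
  push_cast
  rfl

theorem C_eq {k : ℕ} (hk : 2 ≤ k) {x : ℚ} (hx : 0 < x) : C k x = Pool.Agent.R352.Q.Zk k x := by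
  rw [C, cubeIntegral_eq hk hx, Complex.ofReal_re]

theorem R_eq {k : ℕ} (hk : 2 ≤ k) {x : ℚ} (hx : 0 < x) : R k x = Pool.Agent.R352.Q.Rk k x := by
  rw [R, tailIntegral_eq hk hx, Complex.ofReal_re]

theorem three {x : ℚ} (hx : 0 < x) :
    R 3 x = 1 / 12 * ∫ t in rest 3 x, Real.log (t 0 * t 1 / t 2 ^ 2) ^ 3 * Real.exp (-(t 0 + t 1 + t 2)) := by
  have hx' : (0 : ℝ) < x := by exact_mod_cast hx
  rw [rest_eq, Pool.Agent.R352.Q.three_rest hx', R_eq (by norm_num) hx]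
  ring

theorem main {r : ℕ} (y : Fin r → ℝ) (K : Set ℕ) (hK : ∀ k ∈ K, 2 ≤ k ∧ AlgebraicOverEAnd y (zeta k)) :
    (algebraicNames y K).encard ≤ (r : ℕ∞) := by
  refine Pool.Agent.R352.E.encard_le_of_finset _ _ fun t ht => ?_
  refine Pool.Agent.R352.Q.countR y t (fun i hi => ?_) (fun p hp => ?_)
  · have h1 := ht hi
    cases i with
    | inl j => exact Pool.Agent.R352.E.mem_clF.2 h1
    | inr p =>
      obtain ⟨h2, h3, h4⟩ := h1
      rw [R_eq (hK _ h2).1 h3] at h4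
      exact Pool.Agent.R352.E.mem_clF.2 h4
  · obtain ⟨h2, h3, -⟩ := ht hp
    exact ⟨(hK _ h2).1, h3, Pool.Agent.R352.E.mem_clF.2 (hK _ h2).2⟩

theorem main_trdeg {r : ℕ} (y : Fin r → ℝ) (K : Set ℕ) (hK : ∀ k ∈ K, 2 ≤ k ∧ AlgebraicOverEAnd y (zeta k))
    (S : Finset (ℕ × ℚ)) (hS : ∀ p ∈ S, p.1 ∈ K ∧ 0 < p.2) :
    ((S.card + 1 : ℕ) : Cardinal) ≤ Algebra.trdeg ℚ (IntermediateField.adjoin ℚ
      ({Real.exp 1} ∪ range y ∪ (fun p : ℕ × ℚ => R p.1 p.2) '' (S : Set (ℕ × ℚ)))) := by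
  have h := Pool.Agent.R352.Q.trdegR y S fun p hp =>
    ⟨(hK _ (hS p hp).1).1, (hS p hp).2, Pool.Agent.R352.E.mem_clF.2 (hK _ (hS p hp).1).2⟩
  have e : (fun p : ℕ × ℚ => R p.1 p.2) '' (S : Set (ℕ × ℚ)) =
      (fun p : ℕ × ℚ => Pool.Agent.R352.Q.Rk p.1 p.2) '' (S : Set (ℕ × ℚ)) := by
    refine image_congr fun p hp => ?_
    have := hS p hp
    exact R_eq (hK _ this.1).1 this.2
  rw [e]
  exact h

/-- the names of `ζ(3)` and `R_3(x)`, `x` positive rational -/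
def namesThree : Set (Option ℚ) :=
  {o | o.elim (AlgebraicOverE (zeta 3)) fun x => 0 < x ∧ AlgebraicOverE (R 3 x)}

theorem three_count : namesThree.encard ≤ 1 := by
  have h := main (fun _ : Fin 1 => zeta 3) {3} (by
    rintro k rfl
    refine ⟨by norm_num, Pool.Agent.R352.E.mem_clF.1 (Pool.Agent.R352.E.subset_clF _ (Or.inr ⟨0, rfl⟩))⟩)
  let f : Option ℚ → Fin 1 ⊕ (ℕ × ℚ) := fun o => o.elim (Sum.inl 0) fun x => Sum.inr (3, x)
  have hf : Function.Injective f := by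
    intro a b hab
    cases a <;> cases b <;> simp_all [f]
  have h2 : f '' namesThree ⊆ algebraicNames (fun _ : Fin 1 => zeta 3) {3} := by
    rintro _ ⟨o, ho, rfl⟩
    cases o with
    | none => exact ho
    | some x => exact ⟨rfl, ho.1, ho.2⟩
  calc namesThree.encard = (f '' namesThree).encard := (hf.encard_image _).symm
    _ ≤ _ := encard_le_encard h2
    _ ≤ 1 := by exact_mod_cast h

theorem three_indep (h : AlgebraicOverE (zeta 3)) :
    AlgebraicIndependent ℚ (fun o : Option {x : ℚ // 0 < x} => o.elim (Real.exp 1) fun x => R 3 x) := by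
  have h1 := Pool.Agent.R352.Q.AI_R {3} (by
    rintro k rfl
    exact ⟨by norm_num, Pool.Agent.R352.E.mem_clF.2 h⟩)
  let f : Option {x : ℚ // 0 < x} → Option {p : ℕ × ℚ // p.1 ∈ ({3} : Set ℕ) ∧ 0 < p.2} :=
    Option.map fun x => ⟨(3, x), rfl, x.2⟩
  have hf : Function.Injective f := by
    refine Option.map_injective ?_
    intro a b hab
    simp only [Subtype.mk.injEq, Prod.mk.injEq, true_and] at hab
    exact Subtype.ext hab
  have h2 := h1.comp f hf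
  convert h2 using 1
  ext o
  cases o with
  | none => rfl
  | some x => exact R_eq (by norm_num) x.2

theorem constants_mem {c k : ℕ} (hk : 2 ≤ k) (h : Even k ∨ k ≤ 2 * c + 1) :
    AlgebraicOverEAnd (constants c) (zeta k) := by
  refine Pool.Agent.R352.E.mem_clF.1 ?_
  have hpi : Real.pi ∈ Pool.Agent.R352.E.clF ({Real.exp 1} ∪ range (constants c)) :=
    Pool.Agent.R352.E.subset_clF _ (Or.inr ⟨0, rfl⟩)
  rcases Nat.even_or_odd' k with ⟨j, rfl | rfl⟩
  · exact Pool.Agent.R352.E.zt_even hpi j (by omega)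
  · have h1 : 2 * j + 1 ≤ 2 * c + 1 := by
      rcases h with h | h
      · exact absurd h (by simp)
      · exact h
    refine Pool.Agent.R352.E.subset_clF _ (Or.inr ⟨Fin.succ ⟨j - 1, by omega⟩, ?_⟩)
    simp only [constants, Fin.cons_succ]
    congr 1
    omega

theorem result :
    -- (1)
    ((∀ k : ℕ, 2 ≤ k → ∀ x : ℚ, 0 < x →
        cubeIntegral k x = (C k x : ℂ) ∧ tailIntegral k x = (R k x : ℂ) ∧ zeta k = C k x + R k x) ∧
      ∀ x : ℚ, 0 < x → R 3 x =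
        1 / 12 * ∫ t in rest 3 x, Real.log (t 0 * t 1 / t 2 ^ 2) ^ 3 * Real.exp (-(t 0 + t 1 + t 2))) ∧
    -- (2)
    AlgebraicIndependent ℚ (fun o : Option {p : ℕ × ℚ // 2 ≤ p.1 ∧ 0 < p.2} =>
      o.elim (Real.exp 1) fun p => C p.1.1 p.1.2) ∧
    -- (3)
    (namesThree.encard ≤ 1 ∧ (AlgebraicOverE (zeta 3) →
      AlgebraicIndependent ℚ (fun o : Option {x : ℚ // 0 < x} => o.elim (Real.exp 1) fun x => R 3 x))) ∧
    -- (4)
    (∀ (r : ℕ) (y : Fin r → ℝ) (K : Set ℕ), (∀ k ∈ K, 2 ≤ k ∧ AlgebraicOverEAnd y (zeta k)) →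
      (algebraicNames y K).encard ≤ (r : ℕ∞) ∧
      ∀ S : Finset (ℕ × ℚ), (∀ p ∈ S, p.1 ∈ K ∧ 0 < p.2) →
        ((S.card + 1 : ℕ) : Cardinal) ≤ Algebra.trdeg ℚ (IntermediateField.adjoin ℚ
          ({Real.exp 1} ∪ range y ∪ (fun p : ℕ × ℚ => R p.1 p.2) '' (S : Set (ℕ × ℚ))))) ∧
    -- (5)
    (∀ c : ℕ, (algebraicNames (constants c) {k | 2 ≤ k ∧ (Even k ∨ k ≤ 2 * c + 1)}).encard ≤
      ((c + 1 : ℕ) : ℕ∞)) := by
  refine ⟨⟨fun k hk x hx => ⟨?_, ?_, ?_⟩, fun x hx => three hx⟩, ?_, ⟨three_count, three_indep⟩,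
    fun r y K hK => ⟨main y K hK, main_trdeg y K hK⟩, fun c => ?_⟩
  · rw [C_eq hk hx, cubeIntegral_eq hk hx]
  · rw [R_eq hk hx, tailIntegral_eq hk hx]
  · rw [C_eq hk hx, R_eq hk hx, Pool.Agent.R352.Q.Rk, zeta, Pool.Agent.R352.E.zt]
    ring
  · have h := Pool.Agent.R352.Q.AI_Z
    convert h using 1
    ext o
    cases o with
    | none => rfl
    | some p => exact C_eq p.2.1 p.2.2
  · exact main (constants c) _ fun k hk => ⟨hk.1, constants_mem hk.1 hk.2⟩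

end Pool.Agent.Results.MP_48b3e2_nt.IncompleteZetaValues
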