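import Pool.Agent.R353.LZ.App
import Pool.Agent.R353.LZ.Gen

/-!
# `ζ(s)` together with `ζ(s + 2), ζ(s + 4), …` and arbitrary constants, for almost all rational numbers `s`

The question concerns `ζ(s)` at `s = 3`. We take rational `s` instead, and also allow arbitrary constants (such as
`ζ(3)` and `π`), arbitrary translates `ζ(s + r_i)`, derivatives, and the residue classes modulo `q` (that is, the
L-functions of the Dirichlet characters modulo `q`): `Z_(a,j)(s) = ∑ (log n) ^ j / n ^ s`, the sum over the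
`n ≡ a mod q`.

(1) A lower bound `T ^ (-B)` for the values of polynomials in arbitrary constants and in these numbers at `n` rational
points with denominators at most `T`, apart from few exceptional `n`-tuples of points. (2) One sparse set of exceptional
points for all degrees, heights, orders, moduli and translates.

Proof. The functions are algebraically independent over `ℝ(s)`: asymptotics for `s → ∞` reduce this to the algebraic
independence of the coefficient functions for the Dirichlet convolution over `ℂ`, and there the derivations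
`f ↦ v_p f`, one for every prime `p`, give a Jacobian criterion, with Dirichlet's theorem on primes in residue classes.
Then the counting theorem `Pool.Agent.Y549.PE.core` applies.
-/

set_option autoImplicit false

namespace Pool.Agent.Results.MP_48b3e2_nt.ZetaAtRationals

open Pool.Agent.R353.LZ

/-- the parameters `N`, `w`, `q - 1`, `g`, `D`, `A`, `k` -/
abbrev Par : Type := ℕ × ℕ × ℕ × ℕ × ℕ × ℕ × ℕ

/-- the family of functions with given parameters -/
noncomputable def fam (r : ℕ → ℝ) (v : Par) : Fam where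
  κ := Fin v.1 × Fin (v.2.1 + 1) × (ZMod (v.2.2.1 + 1))ˣ
  fin := inferInstance
  dec := inferInstance
  u := fun y s => pz (v.2.2.1 + 1) (y.2.2 : ZMod (v.2.2.1 + 1)) (y.2.1 : ℕ) (s + r y.1)
  a := 1 + 1 / ((v.2.2.2.2.2.2 : ℝ) + 1)
  b := (v.2.2.2.2.2.2 : ℝ) + 3
  g := v.2.2.2.1
  D := v.2.2.2.2.1
  A := v.2.2.2.2.2.1

theorem fam_ok (r : ℕ → ℝ) (hr : Function.Injective r) (hr0 : ∀ i, 0 ≤ r i) (v : Par) : (fam r v).OK := by
  obtain ⟨N, w, q, g, D, A, k⟩ := v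
  have hk : (0 : ℝ) ≤ k := Nat.cast_nonneg k
  have h1 : 1 / ((k : ℝ) + 1) ≤ 1 := by
    rw [div_le_one (by positivity)]
    linarith
  have h0 : 0 < 1 / ((k : ℝ) + 1) := by positivity
  have ha : (1 : ℝ) < 1 + 1 / ((k : ℝ) + 1) := by linarith
  have hab : 1 + 1 / ((k : ℝ) + 1) < (k : ℝ) + 3 := by linarith
  obtain ⟨han, hind⟩ := pz_ind (N := N) (w := w) (q := q + 1) (fun i => r i)
    (fun i j h => Fin.ext (hr h)) (fun i => hr0 i) _ _ ha hab
  exact ⟨hab, fun y => (han y).mono fun t ht => ha.trans_le ht.1, hind⟩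

/-- **Zeta values at almost all rational numbers.** `pz q a j s = ∑ (log n) ^ j / n ^ s`, the sum over the integers `n ≥ 1` with
`n ≡ a mod q` (for `q = 1` and `j = 0` this is `ζ(s)`); `spec ξ P = P(ξ, Y)`. -/
theorem result :
    (∀ (n N w q g D : ℕ) [NeZero q] (r : Fin N → ℝ), 1 ≤ n → Function.Injective r → (∀ i, 0 ≤ r i) →
      ∀ a b A ε : ℝ, 1 < a → a < b → 0 < ε →
      ∃ B C : ℝ, 0 ≤ B ∧ 0 < C ∧ ∀ T : ℝ, 1 ≤ T → ∀ ξ : Fin g → ℂ, ∃ S : Finset (Fin n → ℚ),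
      (S.card : ℝ) ≤ C * T ^ (2 * ((n : ℝ) - 1) + ε) ∧ ∀ s : Fin n → ℚ,
      (∀ l, a ≤ s l ∧ s l ≤ b ∧ ((s l).den : ℝ) ≤ T) → s ∉ S →
      ∀ P : MvPolynomial (Fin g ⊕ (Fin n × (Fin N × Fin (w + 1) × (ZMod q)ˣ))) ℤ, (∀ z, P.degreeOf z ≤ D) →
        (∀ m, |((P.coeff m : ℤ) : ℝ)| ≤ T ^ A) → spec ξ P ≠ 0 →
        ∀ m : (Fin n × (Fin N × Fin (w + 1) × (ZMod q)ˣ)) →₀ ℕ,
        T ^ (-B) * ‖(spec ξ P).coeff m‖ < ‖MvPolynomial.aeval (Sum.elim ξ
          fun x : Fin n × (Fin N × Fin (w + 1) × (ZMod q)ˣ) =>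
            ((pz q (x.2.2.2 : ZMod q) (x.2.2.1 : ℕ) ((s x.1 : ℝ) + r x.2.1) : ℝ) : ℂ)) P‖) ∧
    (∀ (ξ : ℕ → ℂ) (r : ℕ → ℝ), Function.Injective r → (∀ i, 0 ≤ r i) →
      ∃ E : Set ℚ, (∀ ε : ℝ, 0 < ε → ∃ C : ℝ, ∀ T : ℝ, 1 ≤ T →
        {s ∈ E | (s.den : ℝ) ≤ T}.Finite ∧ ({s ∈ E | (s.den : ℝ) ≤ T}.ncard : ℝ) ≤ C * T ^ ε) ∧
      ∀ (N w q g D A : ℕ) [NeZero q] (a b : ℝ), 1 < a → ∃ M : ℕ, ∀ s : ℚ, a ≤ s → s ≤ b → M ≤ s.den → s ∉ E →
        ∀ P : MvPolynomial (Fin g ⊕ (Fin N × Fin (w + 1) × (ZMod q)ˣ)) ℤ, (∀ z, P.degreeOf z ≤ D) →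
          (∀ m, |((P.coeff m : ℤ) : ℝ)| ≤ (s.den : ℝ) ^ A) →
          MvPolynomial.aeval (Sum.elim (fun i : Fin g => ξ i) fun y : Fin N × Fin (w + 1) × (ZMod q)ˣ =>
            ((pz q (y.2.2 : ZMod q) (y.2.1 : ℕ) ((s : ℝ) + r y.1) : ℝ) : ℂ)) P = 0 →
          spec (fun i : Fin g => ξ i) P = 0) := by
  classical
  refine ⟨?_, fun ξ r hr hr0 => ?_⟩
  · intro n N w q g D _ r hn hr hr0 a b A ε ha hab hε
    obtain ⟨han, hind⟩ := pz_ind (N := N) (w := w) (q := q) r hr hr0 a b ha hab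
    exact general n g D hn (fun (y : Fin N × Fin (w + 1) × (ZMod q)ˣ) s =>
      pz q (y.2.2 : ZMod q) (y.2.1 : ℕ) (s + r y.1)) a b A ε hab hε
      (fun y => (han y).mono fun t ht => ha.trans_le ht.1) hind
  · obtain ⟨E, hE, hEp⟩ := diagFam ξ (fun i => fam r ((Denumerable.eqv Par).symm i))
      (fun i => fam_ok r hr hr0 _)
    refine ⟨E, hE, fun N w q g D A _ a b ha => ?_⟩
    obtain ⟨q', rfl⟩ : ∃ q', q = q' + 1 := ⟨q - 1, by
      have : q ≠ 0 := NeZero.ne q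
      omega⟩
    obtain ⟨k, hk⟩ := exists_nat_gt (max (1 / (a - 1)) b)
    obtain ⟨M, hM⟩ := hEp ((Denumerable.eqv Par) (N, w, q', g, D, A, k))
    rw [Equiv.symm_apply_apply] at hM
    refine ⟨M, fun s hs1 hs2 hs3 hs4 P hPd hPc hP0 => ?_⟩
    have hk1 : 1 / (a - 1) < k := (le_max_left _ _).trans_lt hk
    have hk2 : b < k := (le_max_right _ _).trans_lt hk
    have ha1 : 0 < a - 1 := by linarith
    have hka : 1 + 1 / ((k : ℝ) + 1) ≤ a := by
      have h1 : 1 / ((k : ℝ) + 1) ≤ a - 1 := by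
        rw [div_lt_iff₀ ha1] at hk1
        rw [div_le_iff₀ (by positivity)]
        nlinarith
      linarith
    exact hM s (hka.trans hs1) (by
      change (s : ℝ) ≤ (k : ℝ) + 3
      linarith) hs3 hs4 P hPd hPc hP0

end Pool.Agent.Results.MP_48b3e2_nt.ZetaAtRationals
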